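import Pool.Agent.Helper94.YF.St

/-! # Project YF: module JH -/

set_option autoImplicit false

namespace Pool.Agent.Helper48.YF

open Pool.Agent.Helper94.YF

private lemma red {L P : ℕ} {b : ZMod L} (hb : (P : ZMod L) * b = 0) (k : ℕ) :
    (k : ZMod L) * b = ((k % P : ℕ) : ZMod L) * b := by
  conv_lhs => rw [← Nat.div_add_mod k P]
  push_cast
  have : ((P : ZMod L) * ((k / P : ℕ) : ZMod L) + ((k % P : ℕ) : ZMod L)) * b
      = ((k / P : ℕ) : ZMod L) * ((P : ZMod L) * b) + ((k % P : ℕ) : ZMod L) * b := by ring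
  rw [this, hb]
  ring

theorem hJH : Pool.Agent.Helper94.YF.StJH := by
  intro L P b ⟨hbb, hPb, ⟨a, ha⟩, _⟩
  have hP : 0 < P := by rw [ha]; positivity
  have : NeZero P := ⟨hP.ne'⟩
  refine ⟨fun x => (x.val : ZMod L) * b, ?_, ?_, ?_, ?_, ?_⟩
  · show (((1 : ZMod P).val : ℕ) : ZMod L) * b = b
    have h1 : (1 : ZMod P).val = 1 % P := by
      have := ZMod.val_natCast P 1
      simpa using this
    rw [h1, ← red hPb 1]
    simp
  · simp
  · intro x y
    show (((x + y : ZMod P).val : ℕ) : ZMod L) * b = _ * b + _ * b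
    rw [ZMod.val_add, ← red hPb]
    push_cast
    ring
  · intro x y
    show (((x * y : ZMod P).val : ℕ) : ZMod L) * b = (_ * b) * (_ * b)
    rw [ZMod.val_mul, ← red hPb]
    push_cast
    calc _ = ((x.val : ZMod L) * (y.val : ZMod L)) * (b * b) := by rw [hbb]
      _ = _ := by ring
  · intro x
    rfl

end Pool.Agent.Helper48.YF
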